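import Mathlib

/-!
Families with no two members (equal or not) meeting in exactly one element: the number of ordered
disjoint pairs (MP_28c1b3_co, case `t = 1`).
-/

open Finset

namespace Pool.Agent.H45.TA

variable {α : Type*} [Fintype α] [DecidableEq α]

/-- The union of the members of `F` inside `P`. -/
def inn (F : Finset (Finset α)) (P : Finset α) : Finset α := (F.filter (fun A => A ⊆ P)).sup id

/-- The ordered pairs of disjoint members. -/
def dpairs (F : Finset (Finset α)) : Finset (Finset α × Finset α) :=
  (F ×ˢ F).filter (fun p => Disjoint p.1 p.2)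

/-- Some member of `F` contains `e` and is disjoint from `A`. -/
def sees (F : Finset (Finset α)) (e : α) (A : Finset α) : Prop := ∃ C ∈ F, e ∈ C ∧ Disjoint C A

instance (F : Finset (Finset α)) (e : α) (A : Finset α) : Decidable (sees F e A) :=
  inferInstanceAs (Decidable (∃ C ∈ F, e ∈ C ∧ Disjoint C A))

/-- A good family: no intersection of size one, closed under unions, contains the empty set. -/
structure Good (F : Finset (Finset α)) : Prop where
  avoid : ∀ A ∈ F, ∀ B ∈ F, (A ∩ B).card ≠ 1
  empty : ∅ ∈ F
  union : ∀ A ∈ F, ∀ B ∈ F, A ∪ B ∈ F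

lemma inn_subset (F : Finset (Finset α)) (P : Finset α) : inn F P ⊆ P := by
  unfold inn
  exact Finset.sup_le (fun A hA => (Finset.mem_filter.mp hA).2)

lemma subset_inn {F : Finset (Finset α)} {A P : Finset α} (hA : A ∈ F) (h : A ⊆ P) :
    A ⊆ inn F P := by
  unfold inn
  exact Finset.le_sup (f := id) (Finset.mem_filter.mpr ⟨hA, h⟩)

lemma inn_mem {F : Finset (Finset α)} (hF : Good F) (P : Finset α) : inn F P ∈ F := by
  unfold inn
  have h := Finset.sup_mem (↑F : Set (Finset α)) (by simpa using hF.empty)
    (fun x hx y hy => by simpa using hF.union x (by simpa using hx) y (by simpa using hy))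
    (F.filter (fun A => A ⊆ P)) id (fun A hA => by simpa using (Finset.mem_filter.mp hA).1)
  simpa using h

lemma inn_mono (F : Finset (Finset α)) {P Q : Finset α} (h : P ⊆ Q) : inn F P ⊆ inn F Q := by
  unfold inn
  apply Finset.sup_mono
  intro A hA
  rw [Finset.mem_filter] at hA ⊢
  exact ⟨hA.1, hA.2.trans h⟩

/-- The fibre over the pair `(A, B)`. -/
def fib (F : Finset (Finset α)) (A B : Finset α) : Finset (Finset α) :=
  univ.filter (fun P => inn F P = A ∧ inn F Pᶜ = B)

lemma mem_fib {F : Finset (Finset α)} {A B P : Finset α} :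
    P ∈ fib F A B ↔ inn F P = A ∧ inn F Pᶜ = B := by
  unfold fib
  simp

lemma compl_mem_fib {F : Finset (Finset α)} {A B P : Finset α} (h : P ∈ fib F A B) :
    Pᶜ ∈ fib F B A := by
  rw [mem_fib] at h ⊢
  rw [compl_compl]
  exact ⟨h.2, h.1⟩

lemma fib_left {F : Finset (Finset α)} {A B P : Finset α} (h : P ∈ fib F A B) : A ⊆ P := by
  rw [mem_fib] at h
  rw [← h.1]
  exact inn_subset F P

lemma fib_right {F : Finset (Finset α)} {A B P : Finset α} (h : P ∈ fib F A B) : B ⊆ Pᶜ := by
  rw [mem_fib] at h
  rw [← h.2]
  exact inn_subset F Pᶜ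

/-- A member inside `P` is inside `A`. -/
lemma fib_le {F : Finset (Finset α)} {A B P C : Finset α} (h : P ∈ fib F A B) (hC : C ∈ F)
    (hCP : C ⊆ P) : C ⊆ A := by
  rw [mem_fib] at h
  rw [← h.1]
  exact subset_inn hC hCP

lemma fib_le' {F : Finset (Finset α)} {A B P C : Finset α} (h : P ∈ fib F A B) (hC : C ∈ F)
    (hCP : C ⊆ Pᶜ) : C ⊆ B := by
  rw [mem_fib] at h
  rw [← h.2]
  exact subset_inn hC hCP

/-- A criterion for membership in the fibre. -/
lemma mem_fib_of {F : Finset (Finset α)} {A B P : Finset α} (hA : A ∈ F) (hB : B ∈ F)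
    (hAP : A ⊆ P) (hBP : B ⊆ Pᶜ) (h1 : ∀ C ∈ F, C ⊆ P → C ⊆ A) (h2 : ∀ C ∈ F, C ⊆ Pᶜ → C ⊆ B) :
    P ∈ fib F A B := by
  rw [mem_fib]
  constructor
  · apply Finset.Subset.antisymm
    · unfold inn
      exact Finset.sup_le (fun C hC => h1 C (Finset.mem_filter.mp hC).1 (Finset.mem_filter.mp hC).2)
    · exact subset_inn hA hAP
  · apply Finset.Subset.antisymm
    · unfold inn
      exact Finset.sup_le (fun C hC => h2 C (Finset.mem_filter.mp hC).1 (Finset.mem_filter.mp hC).2)
    · exact subset_inn hB hBP

/-- Two members sharing `x` share something else. -/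
lemma exists_other {F : Finset (Finset α)} (hF : Good F) {A B : Finset α} (hA : A ∈ F)
    (hB : B ∈ F) {x : α} (hxA : x ∈ A) (hxB : x ∈ B) : ∃ y ∈ A ∩ B, y ≠ x := by
  by_contra hcon
  push Not at hcon
  apply hF.avoid A hA B hB
  rw [Finset.card_eq_one]
  refine ⟨x, ?_⟩
  ext y
  rw [Finset.mem_singleton]
  constructor
  · intro hy
    exact hcon y hy
  · rintro rfl
    exact Finset.mem_inter.mpr ⟨hxA, hxB⟩

/-- Every pair of disjoint members has a nonempty fibre. -/
lemma fib_nonempty {F : Finset (Finset α)} (hF : Good F) {A B : Finset α} (hA : A ∈ F)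
    (hB : B ∈ F) (hAB : Disjoint A B) : (fib F A B).Nonempty := by
  classical
  let 𝒮 : Finset (Finset α) := univ.filter (fun P => P ⊆ Bᶜ ∧ inn F P = A)
  have hne : 𝒮.Nonempty := by
    refine ⟨A, ?_⟩
    rw [Finset.mem_filter]
    refine ⟨Finset.mem_univ _, ?_, ?_⟩
    · intro x hx
      rw [Finset.mem_compl]
      exact Finset.disjoint_left.mp hAB hx
    · exact Finset.Subset.antisymm (inn_subset F A) (subset_inn hA (Finset.Subset.refl A))
  obtain ⟨P, hP, hmax⟩ := Finset.exists_max_image 𝒮 Finset.card hne
  rw [Finset.mem_filter] at hP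
  obtain ⟨-, hPB, hPA⟩ := hP
  refine ⟨P, ?_⟩
  rw [mem_fib]
  refine ⟨hPA, ?_⟩
  have hBP : B ⊆ Pᶜ := by
    intro x hx
    rw [Finset.mem_compl]
    intro hxP
    exact (Finset.mem_compl.mp (hPB hxP)) hx
  apply Finset.Subset.antisymm _ (subset_inn hB hBP)
  intro x hx
  by_contra hxB
  have hxP : x ∉ P := Finset.mem_compl.mp (inn_subset F Pᶜ hx)
  have hins : insert x P ∉ 𝒮 := by
    intro h
    have := hmax _ h
    rw [Finset.card_insert_of_notMem hxP] at this
    omega
  apply hins
  rw [Finset.mem_filter]
  refine ⟨Finset.mem_univ _, ?_, ?_⟩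
  · intro y hy
    rw [Finset.mem_insert] at hy
    rcases hy with rfl | hy
    · exact Finset.mem_compl.mpr hxB
    · exact hPB hy
  · apply Finset.Subset.antisymm
    · unfold inn
      apply Finset.sup_le
      intro C hC
      rw [Finset.mem_filter] at hC
      rw [id, ← hPA]
      apply subset_inn hC.1
      intro y hy
      have hy' := hC.2 hy
      rw [Finset.mem_insert] at hy'
      rcases hy' with rfl | hy'
      · exfalso
        obtain ⟨z, hz, hzy⟩ := exists_other hF hC.1 (inn_mem hF Pᶜ) hy hx
        rw [Finset.mem_inter] at hz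
        have h1 := hC.2 hz.1
        rw [Finset.mem_insert] at h1
        rcases h1 with h1 | h1
        · exact hzy h1
        · exact (Finset.mem_compl.mp (inn_subset F Pᶜ hz.2)) h1
      · exact hy'
    · apply subset_inn hA
      intro y hy
      rw [Finset.mem_insert]
      right
      rw [← hPA] at hy
      exact inn_subset F P hy

/-- The exchange step. -/
lemma exchange {F : Finset (Finset α)} (hF : Good F) {A B P : Finset α} (hA : A ∈ F) (hB : B ∈ F)
    (hP : P ∈ fib F A B) (hmin : ∀ y ∈ P, P.erase y ∉ fib F A B) {e : α} (heP : e ∉ P)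
    (heB : e ∉ B) (hs : sees F e A) : ∃ N ∈ fib F A B, e ∈ N ∧ N ⊆ insert e P := by
  classical
  by_cases hins : insert e P ∈ fib F A B
  · exact ⟨_, hins, Finset.mem_insert_self e P, Finset.Subset.refl _⟩
  obtain ⟨C, hC, heC, hCA⟩ := hs
  have hBc : B ⊆ (insert e P)ᶜ := by
    intro x hx
    rw [Finset.mem_compl, Finset.mem_insert]
    rintro (rfl | h)
    · exact heB hx
    · exact (Finset.mem_compl.mp (fib_right hP hx)) h
  have hAi : A ⊆ insert e P := (fib_left hP).trans (Finset.subset_insert e P)
  -- a member inside `insert e P`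
  obtain ⟨A', hA', hA'P, hA'A⟩ : ∃ A' ∈ F, A' ⊆ insert e P ∧ ¬ A' ⊆ A := by
    by_contra hcon
    push Not at hcon
    apply hins
    apply mem_fib_of hA hB hAi hBc hcon
    intro D hD hDs
    apply fib_le' hP hD
    exact hDs.trans (Finset.compl_subset_compl.mpr (Finset.subset_insert e P))
  have heA' : e ∈ A' := by
    by_contra h
    apply hA'A
    apply fib_le hP hA'
    intro x hx
    have := hA'P hx
    rw [Finset.mem_insert] at this
    rcases this with rfl | h'
    · exact absurd hx h
    · exact h'
  obtain ⟨y, hy, hye⟩ := exists_other hF hA' hC heA' heC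
  rw [Finset.mem_inter] at hy
  have hyP : y ∈ P := by
    have := hA'P hy.1
    rw [Finset.mem_insert] at this
    rcases this with h | h
    · exact absurd h hye
    · exact h
  have hyA : y ∉ A := fun h => Finset.disjoint_left.mp hCA hy.2 h
  have hyB : y ∉ B := fun h => (Finset.mem_compl.mp (fib_right hP h)) hyP
  -- the member `B'` through `y` in the complement
  obtain ⟨B', hB', hB'P, hB'B⟩ : ∃ B' ∈ F, B' ⊆ (P.erase y)ᶜ ∧ ¬ B' ⊆ B := by
    by_contra hcon
    push Not at hcon
    apply hmin y hyP
    apply mem_fib_of hA hB _ _ _ hcon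
    · intro x hx
      rw [Finset.mem_erase]
      refine ⟨?_, fib_left hP hx⟩
      rintro rfl
      exact hyA hx
    · exact (fib_right hP).trans (Finset.compl_subset_compl.mpr (Finset.erase_subset y P))
    · intro D hD hDs
      exact fib_le hP hD (hDs.trans (Finset.erase_subset y P))
  have hyB' : y ∈ B' := by
    by_contra h
    apply hB'B
    apply fib_le' hP hB'
    intro x hx
    have := hB'P hx
    rw [Finset.mem_compl, Finset.mem_erase, not_and_or, not_not] at this
    rcases this with rfl | h'
    · exact absurd hx h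
    · exact Finset.mem_compl.mpr h'
  have heB' : e ∈ B' := by
    obtain ⟨z, hz, hzy⟩ := exists_other hF hA' hB' hy.1 hyB'
    rw [Finset.mem_inter] at hz
    have h1 := hA'P hz.1
    rw [Finset.mem_insert] at h1
    rcases h1 with rfl | h1
    · exact hz.2
    · exfalso
      have h2 := hB'P hz.2
      rw [Finset.mem_compl, Finset.mem_erase, not_and_or, not_not] at h2
      rcases h2 with h2 | h2
      · exact hzy h2
      · exact h2 h1
  refine ⟨(insert e P).erase y, ?_, ?_, Finset.erase_subset _ _⟩
  · apply mem_fib_of hA hB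
    · intro x hx
      rw [Finset.mem_erase]
      refine ⟨?_, hAi hx⟩
      rintro rfl
      exact hyA hx
    · exact hBc.trans (Finset.compl_subset_compl.mpr (Finset.erase_subset _ _))
    · intro D hD hDs
      apply fib_le hP hD
      intro x hx
      have h1 := hDs hx
      rw [Finset.mem_erase, Finset.mem_insert] at h1
      obtain ⟨hxy, hx' | hx'⟩ := h1
      · exfalso
        subst hx'
        obtain ⟨z, hz, hze⟩ := exists_other hF hD hB' hx heB'
        rw [Finset.mem_inter] at hz
        have h2 := hDs hz.1
        rw [Finset.mem_erase, Finset.mem_insert] at h2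
        obtain ⟨hzy, h3 | h3⟩ := h2
        · exact hze h3
        · have h4 := hB'P hz.2
          rw [Finset.mem_compl, Finset.mem_erase, not_and_or, not_not] at h4
          rcases h4 with h4 | h4
          · exact hzy h4
          · exact h4 h3
      · exact hx'
    · intro D hD hDs
      apply fib_le' hP hD
      intro x hx
      rw [Finset.mem_compl]
      intro hxP
      have h1 := hDs hx
      rw [Finset.mem_compl, Finset.mem_erase, Finset.mem_insert, not_and_or, not_not, not_or] at h1
      rcases h1 with h1 | h1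
      · subst h1
        obtain ⟨z, hz, hzx⟩ := exists_other hF hD hA' hx hy.1
        rw [Finset.mem_inter] at hz
        have h2 := hDs hz.1
        rw [Finset.mem_compl, Finset.mem_erase, Finset.mem_insert, not_and_or, not_not, not_or]
          at h2
        have h3 := hA'P hz.2
        rw [Finset.mem_insert] at h3
        rcases h2 with h2 | h2
        · exact hzx h2
        · rcases h3 with h3 | h3
          · exact h2.1 h3
          · exact h2.2 h3
      · exact h1.2 hxP
  · rw [Finset.mem_erase, Finset.mem_insert]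
    exact ⟨hye.symm, Or.inl rfl⟩

end Pool.Agent.H45.TA
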