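import Pool.Agent.H45.TA.Fibre

/-!
The number of ordered disjoint pairs against the maximum size of a two-intersecting family
(MP_28c1b3_co, case `t = 1`).
-/

open Finset

namespace Pool.Agent.H45.TA

variable {α : Type*} [Fintype α] [DecidableEq α]

lemma sees_anti {F : Finset (Finset α)} {e : α} {A A' : Finset α} (h : A ⊆ A')
    (hs : sees F e A') : sees F e A := by
  obtain ⟨C, hC, heC, hCA⟩ := hs
  exact ⟨C, hC, heC, Finset.disjoint_of_subset_right h hCA⟩

/-- The sets on the side of `e`. -/
def side (F : Finset (Finset α)) (e : α) : Finset (Finset α) :=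
  univ.filter (fun P => ¬ sees F e (inn F P) ∧ sees F e (inn F Pᶜ))

lemma mem_side {F : Finset (Finset α)} {e : α} {P : Finset α} :
    P ∈ side F e ↔ ¬ sees F e (inn F P) ∧ sees F e (inn F Pᶜ) := by
  unfold side
  simp

/-- The side family is two-intersecting. -/
lemma side_inter {F : Finset (Finset α)} (hF : Good F) (e : α) {P Q : Finset α}
    (hP : P ∈ side F e) (hQ : Q ∈ side F e) : 2 ≤ (P ∩ Q).card := by
  classical
  rw [mem_side] at hP hQ
  by_contra hlt
  have hcases : (P ∩ Q).card = 0 ∨ (P ∩ Q).card = 1 := by omega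
  rcases hcases with h0 | h1
  · rw [Finset.card_eq_zero] at h0
    have hQP : Q ⊆ Pᶜ := by
      intro x hx
      rw [Finset.mem_compl]
      intro hxP
      have : x ∈ P ∩ Q := Finset.mem_inter.mpr ⟨hxP, hx⟩
      rw [h0] at this
      simp at this
    exact hQ.1 (sees_anti (inn_mono F hQP) hP.2)
  · obtain ⟨x, hx⟩ := Finset.card_eq_one.mp h1
    have hxP : x ∈ P ∧ x ∈ Q := by
      have : x ∈ P ∩ Q := by rw [hx]; exact Finset.mem_singleton_self x
      exact Finset.mem_inter.mp this
    have hQs : Q ⊆ insert x Pᶜ := by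
      intro y hy
      rw [Finset.mem_insert, Finset.mem_compl]
      by_cases hyP : y ∈ P
      · left
        have : y ∈ P ∩ Q := Finset.mem_inter.mpr ⟨hyP, hy⟩
        rw [hx] at this
        exact Finset.mem_singleton.mp this
      · right
        exact hyP
    have hPs : P.erase x ⊆ Qᶜ := by
      intro y hy
      rw [Finset.mem_erase] at hy
      rw [Finset.mem_compl]
      intro hyQ
      have : y ∈ P ∩ Q := Finset.mem_inter.mpr ⟨hy.2, hyQ⟩
      rw [hx] at this
      exact hy.1 (Finset.mem_singleton.mp this)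
    have hs1 : ¬ sees F e (inn F (insert x Pᶜ)) := fun h =>
      hQ.1 (sees_anti (inn_mono F hQs) h)
    have hs2 : sees F e (inn F (P.erase x)) := sees_anti (inn_mono F hPs) hQ.2
    have hx1 : x ∈ inn F P := by
      by_contra hcon
      apply hP.1
      have hsub : inn F P ⊆ inn F (P.erase x) := by
        apply subset_inn (inn_mem hF P)
        intro y hy
        rw [Finset.mem_erase]
        refine ⟨?_, inn_subset F P hy⟩
        rintro rfl
        exact hcon hy
      exact sees_anti hsub hs2
    have hx2 : x ∈ inn F (insert x Pᶜ) := by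
      by_contra hcon
      apply hs1
      have hsub : inn F (insert x Pᶜ) ⊆ inn F Pᶜ := by
        apply subset_inn (inn_mem hF _)
        intro y hy
        have := inn_subset F _ hy
        rw [Finset.mem_insert] at this
        rcases this with rfl | h
        · exact absurd hy hcon
        · exact h
      exact sees_anti hsub hP.2
    obtain ⟨y, hy, hyx⟩ := exists_other hF (inn_mem hF P) (inn_mem hF (insert x Pᶜ)) hx1 hx2
    rw [Finset.mem_inter] at hy
    have h3 := inn_subset F _ hy.1
    have h4 := inn_subset F _ hy.2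
    rw [Finset.mem_insert, Finset.mem_compl] at h4
    rcases h4 with h4 | h4
    · exact hyx h4
    · exact h4 h3

/-- At least `2 ^ n - 2 K` sets see both parts alike. -/
lemma alike_card {F : Finset (Finset α)} (hF : Good F) (K : ℕ)
    (hK : ∀ 𝒰 : Finset (Finset α), (∀ P ∈ 𝒰, ∀ Q ∈ 𝒰, 2 ≤ (P ∩ Q).card) → 𝒰.card ≤ K) (e : α) :
    2 ^ Fintype.card α ≤ ((univ : Finset (Finset α)).filter
      (fun P => e ∈ dlt F (inn F P) (inn F Pᶜ))).card + 2 * K := by
  classical
  have h1 : (side F e).card ≤ K := hK _ (fun P hP Q hQ => side_inter hF e hP hQ)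
  have h2 : ((side F e).image (fun P => Pᶜ)).card ≤ K := Finset.card_image_le.trans h1
  have h3 : (univ : Finset (Finset α)) ⊆ ((univ : Finset (Finset α)).filter
      (fun P => e ∈ dlt F (inn F P) (inn F Pᶜ))) ∪ (side F e)
      ∪ ((side F e).image (fun P => Pᶜ)) := by
    intro P _
    rw [Finset.mem_union, Finset.mem_union, Finset.mem_filter, mem_dlt, mem_side, Finset.mem_image]
    by_cases ha : sees F e (inn F P)
    · by_cases hb : sees F e (inn F Pᶜ)
      · left; left
        exact ⟨Finset.mem_univ _, by tauto⟩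
      · right
        refine ⟨Pᶜ, ?_, compl_compl P⟩
        rw [mem_side, compl_compl]
        exact ⟨hb, ha⟩
    · by_cases hb : sees F e (inn F Pᶜ)
      · left; right
        exact ⟨ha, hb⟩
      · left; left
        exact ⟨Finset.mem_univ _, by tauto⟩
  have h4 := Finset.card_le_card h3
  rw [Finset.card_univ, Fintype.card_finset] at h4
  have h5 := Finset.card_union_le (((univ : Finset (Finset α)).filter
      (fun P => e ∈ dlt F (inn F P) (inn F Pᶜ))) ∪ (side F e))
      ((side F e).image (fun P => Pᶜ))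
  have h6 := Finset.card_union_le ((univ : Finset (Finset α)).filter
      (fun P => e ∈ dlt F (inn F P) (inn F Pᶜ))) (side F e)
  omega

lemma mem_dpairs {F : Finset (Finset α)} {p : Finset α × Finset α} :
    p ∈ dpairs F ↔ (p.1 ∈ F ∧ p.2 ∈ F) ∧ Disjoint p.1 p.2 := by
  unfold dpairs
  rw [Finset.mem_filter, Finset.mem_product]

/-- **The counting theorem** for good families. -/
theorem dpairs_le {F : Finset (Finset α)} (hF : Good F) (hn : 0 < Fintype.card α) (K : ℕ)
    (hK : ∀ 𝒰 : Finset (Finset α), (∀ P ∈ 𝒰, ∀ Q ∈ 𝒰, 2 ≤ (P ∩ Q).card) → 𝒰.card ≤ K) :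
    (dpairs F).card ≤ 2 * K + 1 := by
  classical
  set n := Fintype.card α with hnd
  -- the fibres partition the cube
  have hmap : ∀ P ∈ (univ : Finset (Finset α)), (inn F P, inn F Pᶜ) ∈ dpairs F := by
    intro P _
    rw [mem_dpairs]
    refine ⟨⟨inn_mem hF P, inn_mem hF Pᶜ⟩, ?_⟩
    exact Finset.disjoint_of_subset_left (inn_subset F P)
      (Finset.disjoint_of_subset_right (inn_subset F Pᶜ) disjoint_compl_right)
  have hfibeq : ∀ p : Finset α × Finset α, (univ : Finset (Finset α)).filter
      (fun P => (inn F P, inn F Pᶜ) = p) = fib F p.1 p.2 := by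
    intro p
    ext P
    rw [Finset.mem_filter, mem_fib, Prod.ext_iff]
    simp
  have hsum1 : ∑ p ∈ dpairs F, (fib F p.1 p.2).card = 2 ^ n := by
    rw [hnd, ← Fintype.card_finset (α := α), ← Finset.card_univ,
      Finset.card_eq_sum_card_fiberwise hmap]
    apply Finset.sum_congr rfl
    intro p _
    rw [hfibeq]
  have hsum2 : ∑ P : Finset α, (dlt F (inn F P) (inn F Pᶜ)).card
      = ∑ p ∈ dpairs F, (fib F p.1 p.2).card * (dlt F p.1 p.2).card := by
    rw [← Finset.sum_fiberwise_of_maps_to hmap]
    apply Finset.sum_congr rfl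
    intro p _
    rw [hfibeq, Finset.sum_congr rfl (g := fun _ => (dlt F p.1 p.2).card)]
    · rw [Finset.sum_const, smul_eq_mul]
    · intro P hP
      rw [mem_fib] at hP
      rw [hP.1, hP.2]
  have hsum3 : ∑ P : Finset α, (dlt F (inn F P) (inn F Pᶜ)).card
      = ∑ e : α, ((univ : Finset (Finset α)).filter
        (fun P => e ∈ dlt F (inn F P) (inn F Pᶜ))).card := by
    simp only [Finset.card_eq_sum_ones, Finset.sum_filter]
    rw [Finset.sum_comm]
    apply Finset.sum_congr rfl
    intro P _
    rw [← Finset.sum_filter, Finset.filter_mem_eq_inter, Finset.univ_inter]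
  have hlow : n * 2 ^ n ≤ ∑ p ∈ dpairs F, (fib F p.1 p.2).card * (dlt F p.1 p.2).card
      + n * (2 * K) := by
    rw [← hsum2, hsum3]
    have h1 : ∑ _e : α, 2 ^ n ≤ ∑ e : α, (((univ : Finset (Finset α)).filter
        (fun P => e ∈ dlt F (inn F P) (inn F Pᶜ))).card + 2 * K) :=
      Finset.sum_le_sum (fun e _ => alike_card hF K hK e)
    rw [Finset.sum_const, Finset.sum_add_distrib, Finset.sum_const, Finset.card_univ, smul_eq_mul,
      smul_eq_mul] at h1
    exact h1
  have hup : ∑ p ∈ dpairs F, ((fib F p.1 p.2).card * (dlt F p.1 p.2).card + n)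
      ≤ ∑ p ∈ dpairs F, (n * (fib F p.1 p.2).card + (if p.1 = ∅ ∧ p.2 = ∅ then n else 0)) := by
    apply Finset.sum_le_sum
    intro p hp
    rw [mem_dpairs] at hp
    exact fib_delta hF hp.1.1 hp.1.2 hp.2
  rw [Finset.sum_add_distrib, Finset.sum_add_distrib, Finset.sum_const, smul_eq_mul,
    ← Finset.mul_sum, hsum1] at hup
  have hone : ∑ p ∈ dpairs F, (if p.1 = ∅ ∧ p.2 = ∅ then n else 0) ≤ n := by
    rw [← Finset.sum_filter, Finset.sum_const, smul_eq_mul]
    have h1 : ((dpairs F).filter (fun p => p.1 = ∅ ∧ p.2 = ∅)).card ≤ 1 := by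
      rw [Finset.card_le_one]
      intro a ha b hb
      rw [Finset.mem_filter] at ha hb
      exact Prod.ext (ha.2.1.trans hb.2.1.symm) (ha.2.2.trans hb.2.2.symm)
    calc _ ≤ 1 * n := Nat.mul_le_mul_right n h1
      _ = n := one_mul n
  have hfin : n * (dpairs F).card ≤ n * (2 * K + 1) := by
    have h1 : (dpairs F).card * n = n * (dpairs F).card := Nat.mul_comm _ _
    have h2 : n * (2 * K + 1) = n * (2 * K) + n := by ring
    rw [h2]
    omega
  exact Nat.le_of_mul_le_mul_left hfin hn

end Pool.Agent.H45.TA
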