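import Pool.Agent.H45.TA.Core

/-!
The size of a fibre (MP_28c1b3_co, case `t = 1`).
-/

open Finset

namespace Pool.Agent.H45.TA

variable {α : Type*} [Fintype α] [DecidableEq α]

/-- The elements that see `A` and `B` alike. -/
def dlt (F : Finset (Finset α)) (A B : Finset α) : Finset α :=
  univ.filter (fun e => sees F e A ↔ sees F e B)

lemma mem_dlt {F : Finset (Finset α)} {A B : Finset α} {e : α} :
    e ∈ dlt F A B ↔ (sees F e A ↔ sees F e B) := by
  unfold dlt
  simp

lemma not_sees_of_mem {F : Finset (Finset α)} {A : Finset α} {e : α} (h : e ∈ A) :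
    ¬ sees F e A := by
  rintro ⟨C, -, heC, hCA⟩
  exact Finset.disjoint_left.mp hCA heC h

lemma dlt_notMem_left {F : Finset (Finset α)} {A B : Finset α} (hA : A ∈ F)
    (hAB : Disjoint A B) {e : α} (h : e ∈ dlt F A B) : e ∉ A := by
  intro he
  rw [mem_dlt] at h
  exact not_sees_of_mem he (h.mpr ⟨A, hA, he, hAB⟩)

lemma dlt_comm (F : Finset (Finset α)) (A B : Finset α) : dlt F A B = dlt F B A := by
  ext e
  rw [mem_dlt, mem_dlt]
  exact Iff.comm

lemma dlt_notMem_right {F : Finset (Finset α)} {A B : Finset α} (hB : B ∈ F)
    (hAB : Disjoint A B) {e : α} (h : e ∈ dlt F A B) : e ∉ B := by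
  rw [dlt_comm] at h
  exact dlt_notMem_left hB hAB.symm h

/-- A free element can be removed. -/
lemma free_erase {F : Finset (Finset α)} {A B P : Finset α} (hA : A ∈ F) (hB : B ∈ F)
    (hP : P ∈ fib F A B) {e : α} (heA : e ∉ A) (hs : ¬ sees F e A) :
    P.erase e ∈ fib F A B := by
  apply mem_fib_of hA hB
  · intro x hx
    rw [Finset.mem_erase]
    refine ⟨?_, fib_left hP hx⟩
    rintro rfl
    exact heA hx
  · exact (fib_right hP).trans (Finset.compl_subset_compl.mpr (Finset.erase_subset e P))
  · intro C hC hCP
    exact fib_le hP hC (hCP.trans (Finset.erase_subset e P))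
  · intro C hC hCP
    apply fib_le' hP hC
    intro x hx
    have h1 := hCP hx
    rw [Finset.mem_compl, Finset.mem_erase, not_and_or, not_not] at h1
    rcases h1 with rfl | h1
    · exfalso
      apply hs
      refine ⟨C, hC, hx, ?_⟩
      rw [Finset.disjoint_left]
      intro y hyC hyA
      have h2 := hCP hyC
      rw [Finset.mem_compl, Finset.mem_erase, not_and_or, not_not] at h2
      rcases h2 with rfl | h2
      · exact heA hyA
      · exact h2 (fib_left hP hyA)
    · exact Finset.mem_compl.mpr h1

lemma mem_fib_compl {F : Finset (Finset α)} {A B P : Finset α} :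
    Pᶜ ∈ fib F B A ↔ P ∈ fib F A B := by
  constructor
  · intro h
    have := compl_mem_fib h
    rwa [compl_compl] at this
  · exact compl_mem_fib

/-- The fibre of a pair of disjoint members has at least `1 + δ / 2` elements. -/
theorem fib_card {F : Finset (Finset α)} (hF : Good F) {A B : Finset α} (hA : A ∈ F)
    (hB : B ∈ F) (hAB : Disjoint A B) : 2 + (dlt F A B).card ≤ 2 * (fib F A B).card := by
  classical
  -- a minimal element
  obtain ⟨P, hP, hPmin⟩ := Finset.exists_min_image (fib F A B) Finset.card
    (fib_nonempty hF hA hB hAB)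
  have hmin : ∀ y ∈ P, P.erase y ∉ fib F A B := by
    intro y hy h
    have := hPmin _ h
    rw [Finset.card_erase_of_mem hy] at this
    have hpos : 0 < P.card := Finset.card_pos.mpr ⟨y, hy⟩
    omega
  -- a maximal element above it
  obtain ⟨Q, hQ, hQmax⟩ := Finset.exists_max_image ((fib F A B).filter (fun R => P ⊆ R)) Finset.card
    ⟨P, by rw [Finset.mem_filter]; exact ⟨hP, Finset.Subset.refl P⟩⟩
  rw [Finset.mem_filter] at hQ
  obtain ⟨hQ, hPQ⟩ := hQ
  have hmax : ∀ y ∉ Q, insert y Q ∉ fib F A B := by
    intro y hy h
    have := hQmax (insert y Q) (by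
      rw [Finset.mem_filter]
      exact ⟨h, hPQ.trans (Finset.subset_insert y Q)⟩)
    rw [Finset.card_insert_of_notMem hy] at this
    omega
  -- the interval
  have hI : Finset.Icc P Q ⊆ fib F A B := by
    intro R hR
    rw [Finset.mem_Icc] at hR
    apply mem_fib_of hA hB
    · exact (fib_left hP).trans hR.1
    · exact (fib_right hQ).trans (Finset.compl_subset_compl.mpr hR.2)
    · intro C hC hCR
      exact fib_le hQ hC (hCR.trans hR.2)
    · intro C hC hCR
      exact fib_le' hP hC (hCR.trans (Finset.compl_subset_compl.mpr hR.1))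
  have hIcard : (Finset.Icc P Q).card = 2 ^ (Q.card - P.card) := Finset.card_Icc_finset hPQ
  -- elements outside `Q`
  have hX : ∀ e ∈ dlt F A B, e ∉ Q → ∃ N ∈ fib F A B, e ∈ N ∧ N ⊆ insert e P := by
    intro e he heQ
    have heP : e ∉ P := fun h => heQ (hPQ h)
    have heA := dlt_notMem_left hA hAB he
    have heB := dlt_notMem_right hB hAB he
    by_cases hs : sees F e A
    · exact exchange hF hA hB hP hmin heP heB hs
    · exfalso
      rw [mem_dlt] at he
      have hs' : ¬ sees F e B := fun h => hs (he.mpr h)
      have h1 := free_erase hB hA (compl_mem_fib hQ) heB hs'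
      have h2 := compl_mem_fib h1
      apply hmax e heQ
      have h3 : (Qᶜ.erase e)ᶜ = insert e Q := by
        ext x
        simp only [Finset.mem_compl, Finset.mem_erase, Finset.mem_insert]
        tauto
      rwa [h3] at h2
  have hY : ∀ e ∈ dlt F A B, e ∈ P → ∃ N ∈ fib F A B, e ∉ N ∧ Q.erase e ⊆ N := by
    intro e he heP
    have heQ : e ∈ Q := hPQ heP
    have heA := dlt_notMem_left hA hAB he
    have heB := dlt_notMem_right hB hAB he
    by_cases hs : sees F e B
    · obtain ⟨N, hN, heN, hNs⟩ := exchange hF hB hA (compl_mem_fib hQ) (by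
        intro y hy h
        have h2 := compl_mem_fib h
        have h3 : (Qᶜ.erase y)ᶜ = insert y Q := by
          ext x
          simp only [Finset.mem_compl, Finset.mem_erase, Finset.mem_insert]
          tauto
        rw [h3] at h2
        exact hmax y (Finset.mem_compl.mp hy) h2) (e := e)
        (by rw [Finset.mem_compl, not_not]; exact heQ) heA hs
      refine ⟨Nᶜ, compl_mem_fib hN, ?_, ?_⟩
      · rw [Finset.mem_compl, not_not]
        exact heN
      · intro x hx
        rw [Finset.mem_erase] at hx
        rw [Finset.mem_compl]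
        intro hxN
        have := hNs hxN
        rw [Finset.mem_insert, Finset.mem_compl] at this
        rcases this with h | h
        · exact hx.1 h
        · exact h hx.2
    · exfalso
      rw [mem_dlt] at he
      have hs' : ¬ sees F e A := fun h => hs (he.mp h)
      exact hmin e heP (free_erase hA hB hP heA hs')
  -- counting: elements outside `Q`
  have hcX : 2 ^ (Q.card - P.card) + ((dlt F A B).filter (fun e => e ∉ Q)).card
      ≤ (fib F A B).card := by
    choose! N hN heN hNs using hX
    have hinj : Set.InjOn N ((dlt F A B).filter (fun e => e ∉ Q) : Finset α) := by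
      intro e he e' he' hee
      rw [Finset.coe_filter, Set.mem_setOf_eq] at he he'
      have h1 : e ∈ N e' := by rw [← hee]; exact heN e he.1 he.2
      have h2 := hNs e' he'.1 he'.2 h1
      rw [Finset.mem_insert] at h2
      rcases h2 with h2 | h2
      · exact h2
      · exact absurd (hPQ h2) he.2
    rw [← hIcard, ← Finset.card_image_of_injOn hinj, ← Finset.card_union_of_disjoint]
    · apply Finset.card_le_card
      apply Finset.union_subset hI
      intro R hR
      rw [Finset.mem_image] at hR
      obtain ⟨e, he, rfl⟩ := hR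
      rw [Finset.mem_filter] at he
      exact hN e he.1 he.2
    · rw [Finset.disjoint_left]
      intro R hR hR'
      rw [Finset.mem_image] at hR'
      obtain ⟨e, he, rfl⟩ := hR'
      rw [Finset.mem_filter] at he
      rw [Finset.mem_Icc] at hR
      exact he.2 (hR.2 (heN e he.1 he.2))
  have hcY : 2 ^ (Q.card - P.card) + ((dlt F A B).filter (fun e => e ∈ P)).card
      ≤ (fib F A B).card := by
    choose! N hN heN hNs using hY
    have hinj : Set.InjOn N ((dlt F A B).filter (fun e => e ∈ P) : Finset α) := by
      intro e he e' he' hee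
      rw [Finset.coe_filter, Set.mem_setOf_eq] at he he'
      by_contra hne
      have h1 : e ∉ N e' := by rw [← hee]; exact heN e he.1 he.2
      apply h1
      apply hNs e' he'.1 he'.2
      rw [Finset.mem_erase]
      exact ⟨hne, hPQ he.2⟩
    rw [← hIcard, ← Finset.card_image_of_injOn hinj, ← Finset.card_union_of_disjoint]
    · apply Finset.card_le_card
      apply Finset.union_subset hI
      intro R hR
      rw [Finset.mem_image] at hR
      obtain ⟨e, he, rfl⟩ := hR
      rw [Finset.mem_filter] at he
      exact hN e he.1 he.2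
    · rw [Finset.disjoint_left]
      intro R hR hR'
      rw [Finset.mem_image] at hR'
      obtain ⟨e, he, rfl⟩ := hR'
      rw [Finset.mem_filter] at he
      rw [Finset.mem_Icc] at hR
      exact heN e he.1 he.2 (hR.1 he.2)
  -- the total
  have hcard : (dlt F A B).card ≤ (Q.card - P.card) + ((dlt F A B).filter (fun e => e ∉ Q)).card
      + ((dlt F A B).filter (fun e => e ∈ P)).card := by
    have h1 : dlt F A B ⊆ (Q \ P) ∪ (dlt F A B).filter (fun e => e ∉ Q)
        ∪ (dlt F A B).filter (fun e => e ∈ P) := by
      intro e he
      rw [Finset.mem_union, Finset.mem_union, Finset.mem_sdiff, Finset.mem_filter,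
        Finset.mem_filter]
      tauto
    have h2 := Finset.card_le_card h1
    have h3 := Finset.card_union_le ((Q \ P) ∪ (dlt F A B).filter (fun e => e ∉ Q))
      ((dlt F A B).filter (fun e => e ∈ P))
    have h4 := Finset.card_union_le (Q \ P) ((dlt F A B).filter (fun e => e ∉ Q))
    have h5 : (Q \ P).card = Q.card - P.card := by
      rw [Finset.card_sdiff_of_subset hPQ]
    omega
  have hpow : (Q.card - P.card) + 2 ≤ 2 * 2 ^ (Q.card - P.card) := by
    have : (Q.card - P.card) + 1 ≤ 2 ^ (Q.card - P.card) := Nat.lt_two_pow_self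
    omega
  omega

/-- The key inequality on a fibre. -/
theorem fib_delta {F : Finset (Finset α)} (hF : Good F) {A B : Finset α} (hA : A ∈ F)
    (hB : B ∈ F) (hAB : Disjoint A B) :
    (fib F A B).card * (dlt F A B).card + Fintype.card α
      ≤ Fintype.card α * (fib F A B).card + (if A = ∅ ∧ B = ∅ then Fintype.card α else 0) := by
  classical
  have hd : (dlt F A B).card ≤ Fintype.card α := Finset.card_le_univ _
  split_ifs with h
  · have := Nat.mul_le_mul_left (fib F A B).card hd
    nlinarith
  · have h2 : 2 ≤ (A ∪ B).card := by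
      rcases not_and_or.mp h with hne | hne
      · have h1 : A.card ≠ 1 := by
          have := hF.avoid A hA A hA
          rwa [Finset.inter_self] at this
        have h0 : 0 < A.card := Finset.card_pos.mpr (Finset.nonempty_iff_ne_empty.mpr hne)
        have := Finset.card_le_card (Finset.subset_union_left (s₁ := A) (s₂ := B))
        omega
      · have h1 : B.card ≠ 1 := by
          have := hF.avoid B hB B hB
          rwa [Finset.inter_self] at this
        have h0 : 0 < B.card := Finset.card_pos.mpr (Finset.nonempty_iff_ne_empty.mpr hne)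
        have := Finset.card_le_card (Finset.subset_union_right (s₁ := A) (s₂ := B))
        omega
    have hdis : Disjoint (dlt F A B) (A ∪ B) := by
      rw [Finset.disjoint_left]
      intro e he he'
      rw [Finset.mem_union] at he'
      rcases he' with h1 | h1
      · exact dlt_notMem_left hA hAB he h1
      · exact dlt_notMem_right hB hAB he h1
    have hc : (dlt F A B).card + 2 ≤ Fintype.card α := by
      have h3 := Finset.card_le_univ ((dlt F A B) ∪ (A ∪ B))
      rw [Finset.card_union_of_disjoint hdis] at h3
      omega
    have hb := fib_card hF hA hB hAB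
    obtain ⟨k, hk⟩ := Nat.exists_eq_add_of_le hc
    rw [hk, Nat.add_zero]
    set d := (dlt F A B).card
    set b := (fib F A B).card
    have h5 : 2 * (b * d + (d + 2 + k)) ≤ 2 * ((d + 2 + k) * b) := by
      have h6 : (2 + d) * (2 + k) ≤ (2 * b) * (2 + k) := Nat.mul_le_mul_right _ hb
      nlinarith
    omega

end Pool.Agent.H45.TA
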