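import Mathlib

/-!
Katona's theorem for two-intersecting families.
-/

open Finset

namespace Pool.Agent.H45.TA

section shadow

variable {α : Type*} [DecidableEq α]

/-- The coefficients of the biorthogonal system. -/
noncomputable def hc (k j : ℕ) : ℚ := (-1) ^ j / ((k - 1).choose j : ℚ)

lemma hc_rec {k x : ℕ} (h1 : 2 ≤ x) (h2 : x < k) :
    (x : ℚ) * hc k (x - 1) + ((k : ℚ) - x) * hc k x = 0 := by
  unfold hc
  obtain ⟨y, rfl⟩ : ∃ y, x = y + 1 := ⟨x - 1, by omega⟩
  obtain ⟨l, rfl⟩ : ∃ l, k = l + 1 := ⟨k - 1, by omega⟩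
  simp only [Nat.add_sub_cancel]
  have hch := Nat.choose_succ_right_eq l y
  have hy : y ≤ l := by omega
  have hp1 : (0 : ℚ) < (l.choose y : ℚ) := by exact_mod_cast Nat.choose_pos hy
  have hp2 : (0 : ℚ) < (l.choose (y + 1) : ℚ) := by
    exact_mod_cast Nat.choose_pos (show y + 1 ≤ l by omega)
  have hq : (l.choose (y + 1) : ℚ) * (y + 1) = (l.choose y : ℚ) * ((l : ℚ) - y) := by
    have := congrArg (fun z : ℕ => (z : ℚ)) hch
    simp only [Nat.cast_mul, Nat.cast_sub hy] at this
    exact_mod_cast this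
  push_cast
  rw [pow_succ]
  field_simp
  linear_combination (-1 : ℚ) ^ y * hq

/-- The shadow of a family of `k`-sets. -/
def shd (𝒜 : Finset (Finset α)) : Finset (Finset α) := 𝒜.biUnion (fun A => A.image (fun y => A.erase y))

lemma sum_erase (A A₀ : Finset α) (h : ℕ → ℚ) :
    ∑ y ∈ A, h ((A.erase y) ∩ A₀).card
      = ((A ∩ A₀).card : ℚ) * h ((A ∩ A₀).card - 1) + ((A.card : ℚ) - (A ∩ A₀).card) * h (A ∩ A₀).card := by
  have h1 : ∀ y ∈ A, h ((A.erase y) ∩ A₀).card
      = if y ∈ A₀ then h ((A ∩ A₀).card - 1) else h (A ∩ A₀).card := by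
    intro y hy
    split_ifs with hyA
    · rw [Finset.erase_inter, Finset.card_erase_of_mem (Finset.mem_inter.mpr ⟨hy, hyA⟩)]
    · rw [Finset.erase_inter, Finset.erase_eq_of_notMem]
      intro hcon
      exact hyA (Finset.mem_inter.mp hcon).2
  rw [Finset.sum_congr rfl h1, Finset.sum_ite, Finset.sum_const, Finset.sum_const, nsmul_eq_mul,
    nsmul_eq_mul, Finset.filter_mem_eq_inter]
  congr 1
  congr 1
  have h2 : A.filter (fun y => y ∉ A₀) = A \ A₀ := by
    ext y
    simp
  rw [h2, ← Finset.card_sdiff_add_card_inter A A₀]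
  push_cast
  ring

/-- A two-intersecting family of `k`-sets is not larger than its shadow. -/
theorem card_le_shd {k : ℕ} (hk : 1 ≤ k) (𝒜 : Finset (Finset α)) (hs : ∀ A ∈ 𝒜, A.card = k)
    (hi : ∀ A ∈ 𝒜, ∀ B ∈ 𝒜, 2 ≤ (A ∩ B).card) : 𝒜.card ≤ (shd 𝒜).card := by
  classical
  let v : 𝒜 → (shd 𝒜 → ℚ) := fun A Z => if Z.1 ∈ (A.1).image (fun y => (A.1).erase y) then 1 else 0
  have key : ∀ A A₀ : 𝒜, ∑ Z : shd 𝒜, hc k (Z.1 ∩ A₀.1).card * v A Z
      = if A = A₀ then (k : ℚ) * hc k (k - 1) else 0 := by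
    intro A A₀
    have e1 : ∑ Z : shd 𝒜, hc k (Z.1 ∩ A₀.1).card * v A Z
        = ∑ Z ∈ shd 𝒜, hc k (Z ∩ A₀.1).card
          * (if Z ∈ (A.1).image (fun y => (A.1).erase y) then (1 : ℚ) else 0) := by
      rw [← Finset.sum_coe_sort (shd 𝒜) (fun Z => hc k (Z ∩ A₀.1).card
          * (if Z ∈ (A.1).image (fun y => (A.1).erase y) then (1 : ℚ) else 0))]
    rw [e1]
    have e2 : ∑ Z ∈ shd 𝒜, hc k (Z ∩ A₀.1).card
          * (if Z ∈ (A.1).image (fun y => (A.1).erase y) then (1 : ℚ) else 0)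
        = ∑ Z ∈ (A.1).image (fun y => (A.1).erase y), hc k (Z ∩ A₀.1).card := by
      rw [← Finset.sum_filter_add_sum_filter_not (shd 𝒜)
        (fun Z => Z ∈ (A.1).image (fun y => (A.1).erase y))]
      have e3 : (shd 𝒜).filter (fun Z => Z ∈ (A.1).image (fun y => (A.1).erase y))
          = (A.1).image (fun y => (A.1).erase y) := by
        ext Z
        rw [Finset.mem_filter]
        constructor
        · exact fun h => h.2
        · intro h
          exact ⟨Finset.mem_biUnion.mpr ⟨A.1, A.2, h⟩, h⟩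
      rw [e3]
      have e4 : ∑ Z ∈ (shd 𝒜).filter (fun Z => ¬ Z ∈ (A.1).image (fun y => (A.1).erase y)),
          hc k (Z ∩ A₀.1).card
          * (if Z ∈ (A.1).image (fun y => (A.1).erase y) then (1 : ℚ) else 0) = 0 := by
        apply Finset.sum_eq_zero
        intro Z hZ
        rw [Finset.mem_filter] at hZ
        rw [if_neg hZ.2, mul_zero]
      rw [e4, add_zero]
      apply Finset.sum_congr rfl
      intro Z hZ
      rw [if_pos hZ, mul_one]
    rw [e2, Finset.sum_image, sum_erase, hs A.1 A.2]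
    · split_ifs with hAA
      · subst hAA
        rw [Finset.inter_self, hs A.1 A.2]
        ring
      · have h1 := hi A.1 A.2 A₀.1 A₀.2
        have h2 : (A.1 ∩ A₀.1).card < k := by
          rw [← hs A.1 A.2]
          apply Finset.card_lt_card
          refine ⟨Finset.inter_subset_left, ?_⟩
          intro hcon
          apply hAA
          apply Subtype.ext
          apply Finset.eq_of_subset_of_card_le
          · exact fun x hx => (Finset.mem_inter.mp (hcon hx)).2
          · rw [hs A.1 A.2, hs A₀.1 A₀.2]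
        exact hc_rec h1 h2
    · intro y hy z hz hyz
      rw [Finset.mem_coe] at hy hz
      by_contra hne
      have h1 : z ∈ (A.1).erase y := Finset.mem_erase.mpr ⟨Ne.symm hne, hz⟩
      have h2 : z ∉ (A.1).erase z := Finset.notMem_erase z _
      have h3 : (A.1).erase y = (A.1).erase z := hyz
      apply h2
      rw [← h3]
      exact h1
  have hne : (k : ℚ) * hc k (k - 1) ≠ 0 := by
    apply mul_ne_zero
    · exact_mod_cast (by omega : k ≠ 0)
    · unfold hc
      apply div_ne_zero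
      · exact pow_ne_zero _ (by norm_num)
      · rw [Nat.choose_self]
        norm_num
  have hli : LinearIndependent ℚ v := by
    rw [Fintype.linearIndependent_iff]
    intro c hc0 A₀
    have h1 : ∑ Z : shd 𝒜, hc k (Z.1 ∩ A₀.1).card * (∑ A : 𝒜, c A • v A) Z = 0 := by
      rw [hc0]
      simp
    have h2 : ∑ Z : shd 𝒜, hc k (Z.1 ∩ A₀.1).card * (∑ A : 𝒜, c A • v A) Z
        = ∑ A : 𝒜, c A * ∑ Z : shd 𝒜, hc k (Z.1 ∩ A₀.1).card * v A Z := by
      simp only [Finset.sum_apply, Pi.smul_apply, smul_eq_mul, Finset.mul_sum]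
      rw [Finset.sum_comm]
      apply Finset.sum_congr rfl
      intro A _
      apply Finset.sum_congr rfl
      intro Z _
      ring
    rw [h2] at h1
    simp only [key, mul_ite, mul_zero, Finset.sum_ite_eq', Finset.mem_univ, if_true] at h1
    rcases mul_eq_zero.mp h1 with h3 | h3
    · exact h3
    · exact absurd h3 hne
  have := hli.fintype_card_le_finrank
  rwa [Module.finrank_fintype_fun_eq_card, Fintype.card_coe, Fintype.card_coe] at this

end shadow

/-- The bound of Katona's theorem. -/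
def kk (n : ℕ) : ℕ :=
  if Even n then ∑ j ∈ range (n / 2), n.choose j else 2 * ∑ j ∈ range ((n - 1) / 2), (n - 1).choose j

/-- The members of size `k`. -/
def lev {n : ℕ} (𝒰 : Finset (Finset (Fin n))) (k : ℕ) : Finset (Finset (Fin n)) :=
  𝒰.filter (fun A => A.card = k)

lemma mem_lev {n : ℕ} {𝒰 : Finset (Finset (Fin n))} {k : ℕ} {A : Finset (Fin n)} :
    A ∈ lev 𝒰 k ↔ A ∈ 𝒰 ∧ A.card = k := by
  unfold lev
  exact Finset.mem_filter

/-- Two complementary levels. -/
lemma lev_pair {n : ℕ} (𝒰 : Finset (Finset (Fin n))) (hi : ∀ P ∈ 𝒰, ∀ Q ∈ 𝒰, 2 ≤ (P ∩ Q).card)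
    {j : ℕ} (hj : j < n) : (lev 𝒰 (j + 1)).card + (lev 𝒰 (n - j)).card ≤ n.choose j := by
  classical
  have h1 : (lev 𝒰 (j + 1)).card ≤ (shd (lev 𝒰 (j + 1))).card := by
    apply card_le_shd (k := j + 1) (by omega)
    · intro A hA
      exact (mem_lev.mp hA).2
    · intro A hA B hB
      exact hi A (mem_lev.mp hA).1 B (mem_lev.mp hB).1
  have h2 : ((lev 𝒰 (n - j)).image (fun B => Bᶜ)).card = (lev 𝒰 (n - j)).card :=
    Finset.card_image_of_injective _ compl_injective
  have hdis : Disjoint (shd (lev 𝒰 (j + 1))) ((lev 𝒰 (n - j)).image (fun B => Bᶜ)) := by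
    rw [Finset.disjoint_left]
    intro Z hZ hZ'
    unfold shd at hZ
    rw [Finset.mem_biUnion] at hZ
    obtain ⟨A, hA, hZ⟩ := hZ
    rw [Finset.mem_image] at hZ
    obtain ⟨y, hy, rfl⟩ := hZ
    rw [Finset.mem_image] at hZ'
    obtain ⟨B, hB, hBA⟩ := hZ'
    have h3 := hi A (mem_lev.mp hA).1 B (mem_lev.mp hB).1
    have h4 : A ∩ B ⊆ {y} := by
      intro x hx
      rw [Finset.mem_inter] at hx
      rw [Finset.mem_singleton]
      by_contra hne
      have h5 : x ∈ A.erase y := Finset.mem_erase.mpr ⟨hne, hx.1⟩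
      rw [← hBA, Finset.mem_compl] at h5
      exact h5 hx.2
    have h6 := Finset.card_le_card h4
    rw [Finset.card_singleton] at h6
    omega
  have hsub : shd (lev 𝒰 (j + 1)) ∪ ((lev 𝒰 (n - j)).image (fun B => Bᶜ))
      ⊆ Finset.powersetCard j (univ : Finset (Fin n)) := by
    intro Z hZ
    rw [Finset.mem_powersetCard]
    refine ⟨Finset.subset_univ _, ?_⟩
    rw [Finset.mem_union] at hZ
    rcases hZ with hZ | hZ
    · unfold shd at hZ
      rw [Finset.mem_biUnion] at hZ
      obtain ⟨A, hA, hZ⟩ := hZ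
      rw [Finset.mem_image] at hZ
      obtain ⟨y, hy, rfl⟩ := hZ
      rw [Finset.card_erase_of_mem hy, (mem_lev.mp hA).2]
      omega
    · rw [Finset.mem_image] at hZ
      obtain ⟨B, hB, rfl⟩ := hZ
      rw [Finset.card_compl, (mem_lev.mp hB).2, Fintype.card_fin]
      omega
  have h7 := Finset.card_le_card hsub
  rw [Finset.card_powersetCard, Finset.card_univ, Fintype.card_fin,
    Finset.card_union_of_disjoint hdis, h2] at h7
  omega

/-- The middle level. -/
lemma lev_mid {m : ℕ} (hm : 1 ≤ m) (𝒰 : Finset (Finset (Fin (2 * m + 1))))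
    (hi : ∀ P ∈ 𝒰, ∀ Q ∈ 𝒰, 2 ≤ (P ∩ Q).card) :
    (lev 𝒰 (m + 1)).card ≤ (2 * m).choose (m - 1) := by
  classical
  have h2 : ((lev 𝒰 (m + 1)).image (fun B => Bᶜ)).card = (lev 𝒰 (m + 1)).card :=
    Finset.card_image_of_injective _ compl_injective
  rw [← h2]
  have h := Finset.erdos_ko_rado (n := 2 * m + 1) (r := m)
    (𝒜 := (lev 𝒰 (m + 1)).image (fun B => Bᶜ)) ?_ ?_ (by omega)
  · simpa using h
  · intro a ha b hb hab
    rw [Finset.mem_coe, Finset.mem_image] at ha hb
    obtain ⟨A, hA, rfl⟩ := ha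
    obtain ⟨B, hB, rfl⟩ := hb
    rw [mem_lev] at hA hB
    have h3 := hi A hA.1 B hB.1
    have h4 : A ∪ B = univ := by
      ext x
      simp only [Finset.mem_union, Finset.mem_univ, iff_true]
      by_contra hcon
      push Not at hcon
      exact Finset.disjoint_left.mp hab (Finset.mem_compl.mpr hcon.1)
        (Finset.mem_compl.mpr hcon.2)
    have h5 := Finset.card_union_add_card_inter A B
    rw [h4, Finset.card_univ, Fintype.card_fin, hA.2, hB.2] at h5
    omega
  · intro a ha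
    rw [Finset.mem_coe, Finset.mem_image] at ha
    obtain ⟨A, hA, rfl⟩ := ha
    rw [mem_lev] at hA
    rw [Finset.card_compl, hA.2, Fintype.card_fin]
    omega

lemma card_eq_sum_lev {n : ℕ} (𝒰 : Finset (Finset (Fin n))) :
    𝒰.card = ∑ k ∈ range (n + 1), (lev 𝒰 k).card := by
  unfold lev
  apply Finset.card_eq_sum_card_fiberwise
  intro A _
  rw [Finset.mem_coe, Finset.mem_range]
  have := Finset.card_le_univ A
  rw [Fintype.card_fin] at this
  omega

lemma lev_zero {n : ℕ} (𝒰 : Finset (Finset (Fin n)))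
    (hi : ∀ P ∈ 𝒰, ∀ Q ∈ 𝒰, 2 ≤ (P ∩ Q).card) {k : ℕ} (hk : k < 2) : (lev 𝒰 k).card = 0 := by
  rw [Finset.card_eq_zero, Finset.eq_empty_iff_forall_notMem]
  intro A hA
  rw [mem_lev] at hA
  have := hi A hA.1 A hA.1
  rw [Finset.inter_self] at this
  omega

lemma sum_even_pair (m : ℕ) (f : ℕ → ℕ) :
    ∑ j ∈ range (2 * m), f j = ∑ j ∈ range m, (f j + f (2 * m - 1 - j)) := by
  rw [two_mul, Finset.sum_range_add, Finset.sum_add_distrib]
  congr 1
  rw [← Finset.sum_range_reflect]
  apply Finset.sum_congr rfl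
  intro j hj
  rw [Finset.mem_range] at hj
  congr 1
  omega

lemma sum_odd_pair (m : ℕ) (f : ℕ → ℕ) :
    ∑ j ∈ range (2 * m + 1), f j = ∑ j ∈ range m, (f j + f (2 * m - j)) + f m := by
  have h1 : 2 * m + 1 = m + 1 + m := by ring
  rw [h1, Finset.sum_range_add, Finset.sum_range_succ, Finset.sum_add_distrib]
  have h2 : ∑ x ∈ range m, f (m + 1 + x) = ∑ x ∈ range m, f (2 * m - x) := by
    rw [← Finset.sum_range_reflect]
    apply Finset.sum_congr rfl
    intro j hj
    rw [Finset.mem_range] at hj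
    congr 1
    omega
  rw [h2]
  ring

lemma choose_sum_id (m : ℕ) (hm : 1 ≤ m) :
    ∑ j ∈ range m, (2 * m + 1).choose j + (2 * m).choose (m - 1)
      = 2 * ∑ j ∈ range m, (2 * m).choose j := by
  obtain ⟨l, rfl⟩ : ∃ l, m = l + 1 := ⟨m - 1, by omega⟩
  have key : ∀ a : ℕ, ∑ j ∈ range (l + 1), (a + 1).choose j + a.choose l
      = 2 * ∑ j ∈ range (l + 1), a.choose j := by
    intro a
    rw [Finset.sum_range_succ' (fun j => (a + 1).choose j)]
    simp only [Nat.choose_succ_succ, Nat.choose_zero_right, Nat.succ_eq_add_one]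
    rw [Finset.sum_add_distrib]
    have h1 : ∑ j ∈ range (l + 1), a.choose j = ∑ j ∈ range l, a.choose (j + 1) + 1 := by
      rw [Finset.sum_range_succ' (fun j => a.choose j)]
      simp
    have h2 : ∑ j ∈ range (l + 1), a.choose j = ∑ j ∈ range l, a.choose j + a.choose l :=
      Finset.sum_range_succ _ _
    omega
  simpa using key (2 * (l + 1))

/-- **Katona's theorem** for two-intersecting families. -/
theorem katona {n : ℕ} (𝒰 : Finset (Finset (Fin n)))
    (hi : ∀ P ∈ 𝒰, ∀ Q ∈ 𝒰, 2 ≤ (P ∩ Q).card) : 𝒰.card ≤ kk n := by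
  rw [card_eq_sum_lev, Finset.sum_range_succ' (fun k => (lev 𝒰 k).card),
    lev_zero 𝒰 hi (show 0 < 2 by norm_num), add_zero]
  rcases Nat.even_or_odd n with he | ho
  · obtain ⟨m, rfl⟩ := he.two_dvd
    unfold kk
    rw [if_pos (by simp), Nat.mul_div_cancel_left m (by norm_num),
      sum_even_pair m (fun k => (lev 𝒰 (k + 1)).card)]
    apply Finset.sum_le_sum
    intro j hj
    rw [Finset.mem_range] at hj
    have := lev_pair 𝒰 hi (j := j) (by omega)
    have h2 : 2 * m - 1 - j + 1 = 2 * m - j := by omega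
    rw [h2]
    exact this
  · obtain ⟨m, rfl⟩ := ho
    unfold kk
    rw [if_neg (by simp), Nat.add_sub_cancel, Nat.mul_div_cancel_left m (by norm_num),
      sum_odd_pair m (fun k => (lev 𝒰 (k + 1)).card)]
    rcases Nat.eq_zero_or_pos m with rfl | hm
    · have := lev_zero 𝒰 hi (show 0 + 1 < 2 by norm_num)
      simp [this]
    · rw [← choose_sum_id m hm]
      apply Nat.add_le_add
      · apply Finset.sum_le_sum
        intro j hj
        rw [Finset.mem_range] at hj
        have := lev_pair 𝒰 hi (j := j) (by omega)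
        have h2 : 2 * m - j + 1 = 2 * m + 1 - j := by omega
        rw [h2]
        exact this
      · exact lev_mid hm 𝒰 hi

end Pool.Agent.H45.TA
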