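import Pool.Agent.H45.TA.Count
import Pool.Agent.H45.TA.Katona

/-!
Ordered disjoint pairs in a family of subsets of a finite set `V` of integers
(MP_28c1b3_co, case `t = 1`).
-/

open Finset

namespace Pool.Agent.H45.TA

/-- Every family without intersections of size one is inside a good one. -/
lemma exists_good {α : Type*} [Fintype α] [DecidableEq α] (G : Finset (Finset α))
    (hG : ∀ A ∈ G, ∀ B ∈ G, (A ∩ B).card ≠ 1) : ∃ G', Good G' ∧ G ⊆ G' := by
  classical
  refine ⟨G.powerset.image (fun S => S.sup id), ⟨?_, ?_, ?_⟩, ?_⟩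
  · intro A hA B hB hcard
    rw [Finset.mem_image] at hA hB
    obtain ⟨S, hS, rfl⟩ := hA
    obtain ⟨T, hT, rfl⟩ := hB
    rw [Finset.mem_powerset] at hS hT
    obtain ⟨x, hx⟩ := Finset.card_eq_one.mp hcard
    have hx1 : x ∈ S.sup id ∩ T.sup id := by
      rw [hx]
      exact Finset.mem_singleton_self x
    rw [Finset.mem_inter, Finset.mem_sup, Finset.mem_sup] at hx1
    obtain ⟨⟨A, hA, hxA⟩, ⟨B, hB, hxB⟩⟩ := hx1
    rw [id] at hxA hxB
    apply hG A (hS hA) B (hT hB)
    rw [Finset.card_eq_one]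
    refine ⟨x, ?_⟩
    apply Finset.Subset.antisymm
    · rw [← hx]
      apply Finset.inter_subset_inter
      · exact Finset.le_sup (f := id) hA
      · exact Finset.le_sup (f := id) hB
    · rw [Finset.singleton_subset_iff, Finset.mem_inter]
      exact ⟨hxA, hxB⟩
  · rw [Finset.mem_image]
    exact ⟨∅, Finset.mem_powerset.mpr (Finset.empty_subset _), by simp⟩
  · intro A hA B hB
    rw [Finset.mem_image] at hA hB ⊢
    obtain ⟨S, hS, rfl⟩ := hA
    obtain ⟨T, hT, rfl⟩ := hB
    refine ⟨S ∪ T, ?_, ?_⟩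
    · rw [Finset.mem_powerset] at hS hT ⊢
      exact Finset.union_subset hS hT
    · rw [Finset.sup_union]
      rfl
  · intro A hA
    rw [Finset.mem_image]
    exact ⟨{A}, by rw [Finset.mem_powerset]; simpa using hA, by simp⟩

/-- The bound on the number of ordered disjoint pairs over `Fin n`. -/
theorem dpairs_fin {n : ℕ} (G : Finset (Finset (Fin n)))
    (hG : ∀ A ∈ G, ∀ B ∈ G, (A ∩ B).card ≠ 1) : (dpairs G).card ≤ 2 * kk n + 1 := by
  classical
  obtain ⟨G', hG', hsub⟩ := exists_good G hG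
  have hmono : dpairs G ⊆ dpairs G' := by
    intro p hp
    rw [mem_dpairs] at hp ⊢
    exact ⟨⟨hsub hp.1.1, hsub hp.1.2⟩, hp.2⟩
  apply (Finset.card_le_card hmono).trans
  rcases Nat.eq_zero_or_pos n with rfl | hn
  · have h1 : (dpairs G').card ≤ 1 := by
      rw [Finset.card_le_one]
      intro a _ b _
      exact Prod.ext (Subsingleton.elim _ _) (Subsingleton.elim _ _)
    omega
  · exact dpairs_le hG' (by rw [Fintype.card_fin]; exact hn) (kk n) (fun 𝒰 h𝒰 => katona 𝒰 h𝒰)

/-- The bound over a finite set of integers. -/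
theorem pairs_le (V : Finset ℕ) (F : Finset (Finset ℕ)) (hV : ∀ A ∈ F, A ⊆ V)
    (hF : ∀ A ∈ F, ∀ B ∈ F, (A ∩ B).card ≠ 1) :
    ((F ×ˢ F).filter (fun p => Disjoint p.1 p.2)).card ≤ 2 * kk V.card + 1 := by
  classical
  let emb : Fin V.card ↪ ℕ := V.equivFin.symm.toEmbedding.trans (Function.Embedding.subtype _)
  have hemb : (univ : Finset (Fin V.card)).map emb = V := by
    ext x
    rw [Finset.mem_map]
    constructor
    · rintro ⟨i, -, rfl⟩
      exact (V.equivFin.symm i).2
    · intro hx
      refine ⟨V.equivFin ⟨x, hx⟩, Finset.mem_univ _, ?_⟩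
      simp [emb]
  let G : Finset (Finset (Fin V.card)) := univ.filter (fun P => P.map emb ∈ F)
  have hG : ∀ A ∈ G, ∀ B ∈ G, (A ∩ B).card ≠ 1 := by
    intro A hA B hB
    rw [Finset.mem_filter] at hA hB
    have := hF _ hA.2 _ hB.2
    rwa [← Finset.map_inter, Finset.card_map] at this
  have hex : ∀ A ∈ F, ∃ P ∈ G, A = P.map emb := by
    intro A hA
    have h1 := hV A hA
    rw [← hemb, Finset.subset_map_iff] at h1
    obtain ⟨P, -, rfl⟩ := h1
    exact ⟨P, Finset.mem_filter.mpr ⟨Finset.mem_univ _, hA⟩, rfl⟩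
  have hsub : (F ×ˢ F).filter (fun p => Disjoint p.1 p.2)
      ⊆ (dpairs G).image (fun p => (p.1.map emb, p.2.map emb)) := by
    intro p hp
    rw [Finset.mem_filter, Finset.mem_product] at hp
    obtain ⟨P, hP, hP'⟩ := hex p.1 hp.1.1
    obtain ⟨Q, hQ, hQ'⟩ := hex p.2 hp.1.2
    rw [Finset.mem_image]
    refine ⟨(P, Q), ?_, ?_⟩
    · rw [mem_dpairs]
      refine ⟨⟨hP, hQ⟩, ?_⟩
      have := hp.2
      rw [hP', hQ', Finset.disjoint_map] at this
      exact this
    · exact Prod.ext hP'.symm hQ'.symm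
  calc ((F ×ˢ F).filter (fun p => Disjoint p.1 p.2)).card
      ≤ ((dpairs G).image (fun p => (p.1.map emb, p.2.map emb))).card := Finset.card_le_card hsub
    _ ≤ (dpairs G).card := Finset.card_image_le
    _ ≤ 2 * kk V.card + 1 := dpairs_fin G hG

/-- The sets in the upper half of an even cube. -/
lemma upper_card (V : Finset ℕ) (m : ℕ) (hV : V.card = 2 * m) :
    (V.powerset.filter (fun A => m + 1 ≤ A.card)).card = ∑ j ∈ range m, (2 * m).choose j := by
  classical
  have h1 : (V.powerset.filter (fun A => m + 1 ≤ A.card)).card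
      = (V.powerset.filter (fun A => A.card < m)).card := by
    apply Finset.card_bij' (fun A _ => V \ A) (fun A _ => V \ A)
    · intro A hA
      rw [Finset.mem_filter, Finset.mem_powerset] at hA ⊢
      refine ⟨Finset.sdiff_subset, ?_⟩
      have := Finset.card_le_card hA.1
      rw [Finset.card_sdiff_of_subset hA.1]
      omega
    · intro A hA
      rw [Finset.mem_filter, Finset.mem_powerset] at hA ⊢
      refine ⟨Finset.sdiff_subset, ?_⟩
      have := Finset.card_le_card hA.1
      rw [Finset.card_sdiff_of_subset hA.1]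
      omega
    · intro A hA
      rw [Finset.mem_filter, Finset.mem_powerset] at hA
      exact Finset.sdiff_sdiff_eq_self hA.1
    · intro A hA
      rw [Finset.mem_filter, Finset.mem_powerset] at hA
      exact Finset.sdiff_sdiff_eq_self hA.1
  rw [h1, Finset.card_eq_sum_card_fiberwise (f := Finset.card) (t := range m)]
  · apply Finset.sum_congr rfl
    intro j hj
    rw [Finset.mem_range] at hj
    rw [← hV, ← Finset.card_powersetCard]
    congr 1
    ext A
    rw [Finset.mem_filter, Finset.mem_filter, Finset.mem_powerset, Finset.mem_powersetCard]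
    constructor
    · rintro ⟨⟨h2, -⟩, h3⟩
      exact ⟨h2, h3⟩
    · rintro ⟨h2, h3⟩
      exact ⟨⟨h2, by omega⟩, h3⟩
  · intro A hA
    rw [Finset.mem_coe, Finset.mem_filter] at hA
    rw [Finset.mem_coe, Finset.mem_range]
    exact hA.2

/-! ### Growth of the bound -/

lemma kk_odd (m : ℕ) : kk (2 * m + 1) = 2 * kk (2 * m) := by
  unfold kk
  rw [if_neg (by simp), if_pos (by simp)]
  rfl

lemma kk_even (m : ℕ) : 2 * kk (2 * m + 1) + 1 ≤ kk (2 * m + 2) := by
  have h1 : kk (2 * m + 2) = ∑ j ∈ range (m + 1), (2 * m + 2).choose j := by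
    unfold kk
    rw [if_pos (by rw [show 2 * m + 2 = 2 * (m + 1) by ring]; simp)]
    congr 2
    omega
  have h2 : kk (2 * m + 1) = 2 * ∑ j ∈ range m, (2 * m).choose j := by
    unfold kk
    rw [if_neg (by simp)]
    congr 3
    omega
  rw [h1, h2]
  have h3 : ∑ j ∈ range (m + 1), (2 * m + 2).choose j
      = ∑ j ∈ range m, (2 * m + 1).choose j + ∑ j ∈ range (m + 1), (2 * m + 1).choose j := by
    rw [Finset.sum_range_succ' (fun j => (2 * m + 2).choose j)]
    simp only [Nat.choose_succ_succ, Nat.choose_zero_right, Nat.succ_eq_add_one]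
    rw [Finset.sum_range_succ' (fun j => (2 * m + 1).choose j), Finset.sum_add_distrib]
    simp only [Nat.choose_succ_succ, Nat.choose_zero_right, Nat.succ_eq_add_one]
    ring
  rw [h3, Finset.sum_range_succ (fun j => (2 * m + 1).choose j) m]
  rcases Nat.eq_zero_or_pos m with rfl | hm
  · simp
  · have h4 := choose_sum_id m hm
    have h5 : (2 * m + 1).choose m = (2 * m).choose (m - 1) + (2 * m).choose m := by
      obtain ⟨l, rfl⟩ : ∃ l, m = l + 1 := ⟨m - 1, by omega⟩
      rw [Nat.choose_succ_succ]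
      simp
    have h6 : (2 * m).choose (m - 1) + 1 ≤ (2 * m).choose m := by
      obtain ⟨l, rfl⟩ : ∃ l, m = l + 1 := ⟨m - 1, by omega⟩
      simp only [Nat.add_sub_cancel]
      have h8 := Nat.choose_succ_right_eq (2 * (l + 1)) l
      have h9 : 2 * (l + 1) - l = l + 2 := by omega
      rw [h9] at h8
      have h10 : 0 < (2 * (l + 1)).choose l := Nat.choose_pos (by omega)
      nlinarith
    omega

lemma kk_double (n : ℕ) : 2 * kk n ≤ kk (n + 1) := by
  rcases Nat.even_or_odd n with he | ho
  · obtain ⟨m, rfl⟩ := he.two_dvd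
    rw [kk_odd]
  · obtain ⟨m, rfl⟩ := ho
    have := kk_even m
    have h2 : 2 * m + 1 + 1 = 2 * m + 2 := by ring
    rw [h2]
    omega

lemma kk_pow (n s : ℕ) : 2 ^ s * kk n ≤ kk (n + s) := by
  induction s with
  | zero => simp
  | succ s ih =>
    have := kk_double (n + s)
    rw [pow_succ, ← Nat.add_assoc]
    nlinarith

lemma kk_two : kk 2 = 1 := by decide
lemma kk_three : kk 3 = 2 := by decide
lemma kk_four : kk 4 = 5 := by decide
lemma kk_six : kk 6 = 22 := by decide

end Pool.Agent.H45.TA
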